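import Pool.Agent.W_7d29a1_SR.Scale

/-!
STORM Z, leaf (TOP), MP_7d29a1_pr: if a measure preserving map `T` of the environment changes the point to point costs of the
scale `n` (the end point moves by `s` sites) by at most `A`, then `EE n ≤ K (wd n / s) A`.

Proof: apply `T` about `wd n / s` times; the mean of the cost of the displaced end point is larger than the one of the centre by
at least `EE n`.
-/

namespace Pool.Agent.W_7d29a1_Z25

open MeasureTheory ProbabilityTheory Filter Topology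
open Pool.Agent.W_7d29a1_F Pool.Agent.W_7d29a1_h4g Pool.Agent.W_7d29a1_G Pool.Agent.W_7d29a1_L
open Pool.Agent.W_7d29a1_SR

variable {μ : Measure ℝ} [IsProbabilityMeasure μ] {c C : ℝ} {n₀ : ℕ}

/-! ### Pure part -/

/-- A function with small second moment on a set of small probability. -/
theorem abs_set_le {Ω : Type*} [MeasurableSpace Ω] {P : Measure Ω} [IsProbabilityMeasure P] {f : Ω → ℝ} {N : Set Ω}
    (hf : Integrable f P) (hf2 : Integrable (fun ω => f ω ^ 2) P) {t : ℝ} (ht : 0 < t)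
    (hv : ∫ ω, f ω ^ 2 ∂P ≤ t) (hP : t * P.real N ≤ 1) : |∫ ω in N, f ω ∂P| ≤ 1 := by
  have h1 : |∫ ω in N, f ω ∂P| ≤ ∫ ω in N, |f ω| ∂P := abs_integral_le_integral_abs
  have h2 : ∫ ω in N, |f ω| ∂P ≤ ∫ ω in N, ((2 * t)⁻¹ * f ω ^ 2 + t / 2) ∂P := by
    refine integral_mono hf.abs.integrableOn ?_ fun ω => ?_
    · exact ((hf2.const_mul (2 * t)⁻¹).add (integrable_const (t / 2))).integrableOn
    · have h3 : 0 ≤ (2 * t)⁻¹ * (|f ω| - t) ^ 2 := by positivity
      have e1 : (2 * t)⁻¹ * (|f ω| - t) ^ 2 = (2 * t)⁻¹ * f ω ^ 2 + t / 2 - |f ω| := by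
        rw [sub_sq, sq_abs]
        field_simp
        ring
      simp only
      linarith
  have h4 : ∫ ω in N, ((2 * t)⁻¹ * f ω ^ 2 + t / 2) ∂P = (2 * t)⁻¹ * ∫ ω in N, f ω ^ 2 ∂P + t / 2 * P.real N := by
    rw [integral_add (hf2.const_mul (2 * t)⁻¹).integrableOn (integrable_const (t / 2)).integrableOn, integral_const_mul]
    simp [mul_comm, Measure.real]
  have h5 : ∫ ω in N, f ω ^ 2 ∂P ≤ t :=
    (setIntegral_le_integral hf2 (Eventually.of_forall fun ω => sq_nonneg _)).trans hv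
  have h6 : (2 * t)⁻¹ * ∫ ω in N, f ω ^ 2 ∂P ≤ 1 / 2 := by
    calc (2 * t)⁻¹ * ∫ ω in N, f ω ^ 2 ∂P ≤ (2 * t)⁻¹ * t := mul_le_mul_of_nonneg_left h5 (by positivity)
      _ = 1 / 2 := by field_simp
  linarith

/-- Two random variables which are close off a small set have close means. -/
theorem mean_close {Ω : Type*} [MeasurableSpace Ω] {P : Measure Ω} [IsProbabilityMeasure P] {f g : Ω → ℝ} {N : Set Ω}
    (hN : MeasurableSet N) (hf : Integrable f P) (hg : Integrable g P)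
    (hf2 : Integrable (fun ω => (f ω - ∫ ω, f ω ∂P) ^ 2) P) (hg2 : Integrable (fun ω => (g ω - ∫ ω, g ω ∂P) ^ 2) P)
    {t B : ℝ} (ht : 0 < t) (hB : 0 ≤ B)
    (hvf : ∫ ω, (f ω - ∫ ω, f ω ∂P) ^ 2 ∂P ≤ t) (hvg : ∫ ω, (g ω - ∫ ω, g ω ∂P) ^ 2 ∂P ≤ t) (hP : t * P.real N ≤ 1)
    (hP2 : P.real N ≤ 1 / 2) (hfg : ∀ ω, ω ∉ N → |f ω - g ω| ≤ B) :
    |∫ ω, f ω ∂P - ∫ ω, g ω ∂P| ≤ 2 * B + 4 := by
  set a := ∫ ω, f ω ∂P with ha
  set b := ∫ ω, g ω ∂P with hb
  have h1 := abs_set_le (hf.sub (integrable_const a)) hf2 ht hvf hP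
  have h2 := abs_set_le (hg.sub (integrable_const b)) hg2 ht hvg hP
  have h3 : |∫ ω in Nᶜ, (f ω - g ω) ∂P| ≤ B := by
    have h4 : ‖∫ ω in Nᶜ, (f ω - g ω) ∂P‖ ≤ B * P.real Nᶜ :=
      norm_setIntegral_le_of_norm_le_const (measure_lt_top _ _) fun ω hω => by
        rw [Real.norm_eq_abs]
        exact hfg ω hω
    rw [Real.norm_eq_abs] at h4
    have h5 : P.real Nᶜ ≤ 1 := measureReal_le_one
    nlinarith
  have h6 : ∫ ω in N, (f ω - g ω) ∂P + ∫ ω in Nᶜ, (f ω - g ω) ∂P = a - b := by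
    have h := integral_add_compl hN (hf.sub hg)
    simp only [Pi.sub_apply] at h
    rw [h, integral_sub hf hg]
  have h7 : ∫ ω in N, (f ω - g ω) ∂P = ∫ ω in N, (f ω - a) ∂P - ∫ ω in N, (g ω - b) ∂P + (a - b) * P.real N := by
    rw [integral_sub hf.integrableOn hg.integrableOn, integral_sub hf.integrableOn (integrable_const a).integrableOn,
      integral_sub hg.integrableOn (integrable_const b).integrableOn]
    simp [Measure.real]
    ring
  have h8 : (a - b) * (1 - P.real N) = ∫ ω in N, (f ω - a) ∂P - ∫ ω in N, (g ω - b) ∂P +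
      ∫ ω in Nᶜ, (f ω - g ω) ∂P := by
    linear_combination h7 - h6
  have h9 : |(a - b) * (1 - P.real N)| ≤ 1 + 1 + B := by
    rw [h8]
    refine (abs_add_le _ _).trans (add_le_add ((abs_sub _ _).trans (add_le_add ?_ ?_)) h3)
    · exact h1
    · exact h2
  rw [abs_mul, abs_of_nonneg (by linarith : (0 : ℝ) ≤ 1 - P.real N)] at h9
  have h10 := abs_nonneg (a - b)
  nlinarith

/-- The union of the preimages of `N` under the first `k` iterates. -/
theorem iter_union {Ω : Type*} [MeasurableSpace Ω] {P : Measure Ω} [IsProbabilityMeasure P] {T : Ω → Ω}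
    (hT : MeasurePreserving T P P) {N : Set Ω} (hN : MeasurableSet N) (k : ℕ) :
    MeasurableSet (⋃ i ∈ Finset.range k, T^[i] ⁻¹' N) ∧ P.real (⋃ i ∈ Finset.range k, T^[i] ⁻¹' N) ≤ k * P.real N := by
  constructor
  · exact Finset.measurableSet_biUnion _ fun i _ => (hT.iterate i).measurable hN
  · refine (measureReal_biUnion_finset_le _ _).trans ?_
    have : ∀ i ∈ Finset.range k, P.real (T^[i] ⁻¹' N) = P.real N := by
      intro i _
      unfold Measure.real
      rw [(hT.iterate i).measure_preimage hN.nullMeasurableSet]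
    rw [Finset.sum_congr rfl this]
    simp

/-! ### The costs -/

theorem var_int (hEM : Pool.Agent.W_7d29a1_h47.EM μ) {n : ℕ} {y : ℤ} (h0 : 0 ≤ y) (h1 : y ≤ n) :
    Integrable (fun η => (X μ 0 η 0 n y - e μ 0 n y) ^ 2) (law μ) := by
  have hX := int_X hEM 0 h0 h1
  have hX2 : Integrable (fun η => X μ 0 η 0 n y ^ 2) (law μ) := Sub.sq_integrable hEM (Sub_X 0 h0 h1)
  refine ((hX2.sub (hX.const_mul (2 * e μ 0 n y))).add (integrable_const (e μ 0 n y ^ 2))).congr
    (Eventually.of_forall fun η => ?_)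
  simp only [Pi.add_apply, Pi.sub_apply]
  ring

/-- The cost at a distance of `2 M` widths. -/
theorem far_cost (h : In μ c C n₀) {M : ℝ} (hM : 1 ≤ M) : ∃ n₁ : ℕ, ∀ n : ℕ, n₁ ≤ n → ∀ y : ℤ, 0 ≤ y → y ≤ n →
    2 * M * wd μ n ≤ |(y : ℝ) - n / 2| → M * EE μ n ≤ e μ 0 n y := by
  have hM0 : 0 < M := by linarith
  obtain ⟨n₁, hn₁⟩ := eventually_atTop.1 (h.tv.eventually (eventually_lt_nhds
    (show (0 : ℝ) < 1 / (8 * M) by positivity)))
  refine ⟨max n₁ 1, fun n hn y hy0 hy1 hy => ?_⟩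
  have hn1 : 1 ≤ n := (le_max_right _ _).trans hn
  have hnR : (0 : ℝ) < n := by exact_mod_cast hn1
  have hv := hn₁ n ((le_max_left _ _).trans hn)
  have hv0 := vA_pos (μ := μ) h.em one_pos n
  have hE := one_le_EE (μ := μ) n
  rw [lt_div_iff₀ (by positivity)] at hv
  have h1 := J_le_e h.em hn1 hy0 hy1
  refine le_trans ?_ h1
  rw [← J_abs h.em (((y : ℝ) - n / 2) / n)]
  have h2 : 2 * M * vA μ 1 n ≤ |((y : ℝ) - n / 2) / n| := by
    rw [abs_div, abs_of_pos hnR, le_div_iff₀ hnR]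
    unfold wd at hy
    linarith
  have h3 : |((y : ℝ) - n / 2) / n| ≤ 1 / 2 := by
    rw [abs_div, abs_of_pos hnR, div_le_iff₀ hnR, abs_le]
    have hy0' : (0 : ℝ) ≤ y := by exact_mod_cast hy0
    have hy1' : (y : ℝ) ≤ n := by exact_mod_cast hy1
    constructor <;> linarith
  have h4 : EE μ n ≤ n * J μ (2 * vA μ 1 n) := by
    by_contra hcon
    rw [not_le] at hcon
    have h5 := le_vA (μ := μ) (A := 1) (n := n) (v := 2 * vA μ 1 n) (by positivity)
      (by nlinarith) (by rw [one_mul]; exact hcon.le)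
    linarith
  have h6 := J_mul h.em (v := 2 * vA μ 1 n) (t := M) (by positivity) hM
    (by have := h2.trans h3; linarith)
  have h7 := J_mono' h.em (u := M * (2 * vA μ 1 n)) (v := |((y : ℝ) - n / 2) / n|) (by positivity)
    (by linarith) h3
  calc M * EE μ n ≤ M * (n * J μ (2 * vA μ 1 n)) := mul_le_mul_of_nonneg_left h4 hM0.le
    _ = n * (M * J μ (2 * vA μ 1 n)) := by ring
    _ ≤ n * J μ |((y : ℝ) - n / 2) / n| := mul_le_mul_of_nonneg_left (h6.trans h7) hnR.le

/-- (TOP) -/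
theorem top (h : In μ c C n₀) : ∃ K : ℝ, 0 < K ∧ ∃ n₁ : ℕ, 1 ≤ n₁ ∧ ∀ n : ℕ, n₁ ≤ n → ∀ s : ℕ, 1 ≤ s → (s : ℝ) ≤ wd μ n →
    ∀ (A : ℝ) (T : Env → Env) (N : Set Env), 0 ≤ A → MeasurePreserving T (law μ) (law μ) → MeasurableSet N →
    (law μ).real N * n ^ 3 ≤ 1 →
    (∀ η, η ∉ N → ∀ y : ℤ, 0 ≤ y - s → y ≤ n → |(y : ℝ) - n / 2| ≤ K * wd μ n →
      |X μ 0 (T η) 0 n (y - s) - X μ 0 η 0 n y| ≤ A) →
    EE μ n ≤ K * (wd μ n / s) * A := by
  obtain ⟨Cv, hCv⟩ := var_X h.em 0
  obtain ⟨M, hMdef⟩ : ∃ M : ℝ, M = 6 := ⟨_, rfl⟩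
  have hM : 1 ≤ M := by rw [hMdef]; norm_num
  obtain ⟨n₁, hfar⟩ := far_cost h hM
  obtain ⟨n₂, hn₂⟩ := eventually_atTop.1 (h.tv.eventually (eventually_lt_nhds
    (show (0 : ℝ) < 1 / (16 * M) by positivity)))
  obtain ⟨n₃, hn₃⟩ := eventually_atTop.1 ((wd_tendsto h).eventually_ge_atTop 1)
  obtain ⟨n₄, hn₄⟩ := exists_nat_ge (max |Cv| 1 + 8)
  refine ⟨8 * M, by positivity, max (max (max n₁ n₂) (max n₃ n₄)) (max n₀ 1), le_max_of_le_right (le_max_right _ _),
    fun n hn s hs1 hsw A T N hA hT hN hPN hTN => ?_⟩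
  have hn1 : n₁ ≤ n := ((le_max_left _ _).trans ((le_max_left _ _).trans (le_max_left _ _))).trans hn
  have hn2 : n₂ ≤ n := ((le_max_right _ _).trans ((le_max_left _ _).trans (le_max_left _ _))).trans hn
  have hn3 : n₃ ≤ n := ((le_max_left _ _).trans ((le_max_right _ _).trans (le_max_left _ _))).trans hn
  have hn4 : n₄ ≤ n := ((le_max_right _ _).trans ((le_max_right _ _).trans (le_max_left _ _))).trans hn
  have hn0 : n₀ ≤ n := ((le_max_left _ _).trans (le_max_right _ _)).trans hn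
  have hn5 : 1 ≤ n := ((le_max_right _ _).trans (le_max_right _ _)).trans hn
  have hnR : (0 : ℝ) < n := by exact_mod_cast hn5
  have hn1R : (1 : ℝ) ≤ n := by exact_mod_cast hn5
  have hw1 : 1 ≤ wd μ n := hn₃ n hn3
  have hnC : max |Cv| 1 + 8 ≤ n := hn₄.trans (by exact_mod_cast hn4)
  have hCv1 : |Cv| ≤ max |Cv| 1 := le_max_left _ _
  have hCv2 : 1 ≤ max |Cv| 1 := le_max_right _ _
  have hE := one_le_EE (μ := μ) n
  have hwn : 16 * M * wd μ n ≤ n := by
    have h1 := hn₂ n hn2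
    rw [lt_div_iff₀ (by positivity)] at h1
    unfold wd
    nlinarith
  have hsR : (1 : ℝ) ≤ s := by exact_mod_cast hs1
  have hs0 : (0 : ℝ) < s := by linarith
  -- the number of steps
  set k : ℕ := ⌈(2 * M * wd μ n + 1) / s⌉₊ with hk
  have hk1 : 2 * M * wd μ n + 1 ≤ k * s := by
    have := Nat.le_ceil ((2 * M * wd μ n + 1) / s)
    rwa [div_le_iff₀ hs0] at this
  have hk2 : (k : ℝ) * s ≤ 4 * M * wd μ n := by
    have h1 := Nat.ceil_lt_add_one (a := (2 * M * wd μ n + 1) / s) (by positivity)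
    have h2 : (k : ℝ) * s ≤ ((2 * M * wd μ n + 1) / s + 1) * s := mul_le_mul_of_nonneg_right h1.le hs0.le
    have h3 : ((2 * M * wd μ n + 1) / s + 1) * s = 2 * M * wd μ n + 1 + s := by
      field_simp
    rw [h3] at h2
    nlinarith
  have hkn : (k : ℝ) ≤ n := by
    have : (k : ℝ) ≤ k * s := le_mul_of_one_le_right (Nat.cast_nonneg _) hsR
    nlinarith
  -- the end points
  have hmd1 : (md n : ℝ) ≤ n / 2 := by
    have : 2 * md n ≤ n := by unfold md; omega
    have : (2 : ℝ) * (md n : ℝ) ≤ n := by exact_mod_cast this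
    linarith
  have hmd2 : (n : ℝ) / 2 - 1 / 2 ≤ md n := by
    have : (n : ℤ) ≤ 2 * md n + 1 := by unfold md; omega
    have : (n : ℝ) ≤ 2 * (md n : ℝ) + 1 := by exact_mod_cast this
    linarith
  have hrange : ∀ i : ℕ, i ≤ k → 0 ≤ md n - i * s ∧ md n - i * s ≤ n ∧
      |((md n - i * s : ℤ) : ℝ) - n / 2| ≤ 8 * M * wd μ n := by
    intro i hi
    have hiR : (i : ℝ) ≤ k := by exact_mod_cast hi
    have h1 : (i : ℝ) * s ≤ 4 * M * wd μ n := (mul_le_mul_of_nonneg_right hiR hs0.le).trans hk2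
    have hi0 : (0 : ℝ) ≤ (i : ℝ) * s := by positivity
    refine ⟨?_, ?_, ?_⟩
    · have : (0 : ℝ) ≤ ((md n - i * s : ℤ) : ℝ) := by
        push_cast
        nlinarith
      exact_mod_cast this
    · have : ((md n - i * s : ℤ) : ℝ) ≤ n := by
        push_cast
        linarith
      exact_mod_cast this
    · push_cast
      rw [abs_le]
      constructor <;> nlinarith
  -- telescoping
  obtain ⟨hNm, hNk⟩ := iter_union hT hN k
  set Nk : Set Env := ⋃ i ∈ Finset.range k, T^[i] ⁻¹' N with hNkdef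
  have htel : ∀ η, η ∉ Nk → ∀ i : ℕ, i ≤ k →
      |X μ 0 (T^[i] η) 0 n (md n - i * s) - X μ 0 η 0 n (md n)| ≤ i * A := by
    intro η hη i
    induction i with
    | zero =>
      intro _
      simp
    | succ i ih =>
      intro hi
      have h1 := ih (by omega)
      have h2 : T^[i] η ∉ N := by
        intro hmem
        exact hη (Set.mem_biUnion (Finset.mem_coe.2 (Finset.mem_range.2 (by omega))) hmem)
      have h3 := hrange i (by omega)
      have h4 := hrange (i + 1) hi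
      have e1 : md n - ((i + 1 : ℕ) : ℤ) * s = md n - i * s - s := by push_cast; ring
      rw [e1] at h4 ⊢
      have h5 := hTN (T^[i] η) h2 (md n - i * s) h4.1 h3.2.1 h3.2.2
      rw [Function.iterate_succ_apply']
      have h6 := abs_add_le (X μ 0 (T (T^[i] η)) 0 n (md n - i * s - s) - X μ 0 (T^[i] η) 0 n (md n - i * s))
        (X μ 0 (T^[i] η) 0 n (md n - i * s) - X μ 0 η 0 n (md n))
      rw [sub_add_sub_cancel] at h6
      push_cast
      linarith
  -- the means
  have hr := hrange k le_rfl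
  have hmd0 := md_nonneg n
  have hmdn := md_le n
  have hTk := hT.iterate k
  have hXk := int_X (μ := μ) h.em 0 hr.1 hr.2.1
  have hX0 := int_X (μ := μ) h.em 0 hmd0 hmdn
  have hVk := var_int (μ := μ) h.em hr.1 hr.2.1
  have hV0 := var_int (μ := μ) h.em hmd0 hmdn
  have hmean : ∫ η, X μ 0 (T^[k] η) 0 n (md n - k * s) ∂(law μ) = e μ 0 n (md n - k * s) :=
    Pool.Agent.W_7d29a1_h47.mp_integral hTk (F := fun η => X μ 0 η 0 n (md n - k * s)) hXk.aestronglyMeasurable
  have hvar : ∫ η, (X μ 0 (T^[k] η) 0 n (md n - k * s) - e μ 0 n (md n - k * s)) ^ 2 ∂(law μ) =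
      ∫ η, (X μ 0 η 0 n (md n - k * s) - e μ 0 n (md n - k * s)) ^ 2 ∂(law μ) :=
    Pool.Agent.W_7d29a1_h47.mp_integral hTk
      (F := fun η => (X μ 0 η 0 n (md n - k * s) - e μ 0 n (md n - k * s)) ^ 2) hVk.aestronglyMeasurable
  have hPN0 : 0 ≤ (law μ).real N := measureReal_nonneg
  have hmain := mean_close (P := law μ) (f := fun η => X μ 0 (T^[k] η) 0 n (md n - k * s))
    (g := fun η => X μ 0 η 0 n (md n)) (N := Nk) hNm ((hTk.integrable_comp hXk.aestronglyMeasurable).2 hXk) hX0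
    (by
      simp only [hmean]
      exact (hTk.integrable_comp hVk.aestronglyMeasurable).2 hVk)
    (by exact hV0) (t := max |Cv| 1 * n) (B := k * A) (by positivity) (by positivity)
    (by
      simp only [hmean]
      rw [hvar]
      refine (hCv n _ hr.1 hr.2.1).trans ?_
      exact mul_le_mul_of_nonneg_right ((le_abs_self _).trans hCv1) hnR.le)
    (by
      refine (hCv n _ hmd0 hmdn).trans ?_
      exact mul_le_mul_of_nonneg_right ((le_abs_self _).trans hCv1) hnR.le)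
    (by
      calc max |Cv| 1 * n * (law μ).real Nk ≤ n * n * (n * (law μ).real N) := by
            refine mul_le_mul (mul_le_mul_of_nonneg_right (by linarith) hnR.le)
              (hNk.trans (mul_le_mul_of_nonneg_right hkn hPN0)) measureReal_nonneg (by positivity)
        _ = (law μ).real N * n ^ 3 := by ring
        _ ≤ 1 := hPN)
    (by
      have h1 : (law μ).real Nk ≤ n * (law μ).real N := hNk.trans (mul_le_mul_of_nonneg_right hkn hPN0)
      have h2 : (n : ℝ) * (law μ).real N * 2 ≤ (law μ).real N * n ^ 3 := by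
        have h3 : (2 : ℝ) ≤ n ^ 2 := by nlinarith
        calc (n : ℝ) * (law μ).real N * 2 ≤ (n : ℝ) * (law μ).real N * n ^ 2 :=
              mul_le_mul_of_nonneg_left h3 (by positivity)
          _ = (law μ).real N * n ^ 3 := by ring
      linarith)
    (fun η hη => htel η hη k le_rfl)
  simp only [hmean] at hmain
  have hfark : M * EE μ n ≤ e μ 0 n (md n - k * s) := by
    refine hfar n hn1 _ hr.1 hr.2.1 ?_
    rw [abs_sub_comm]
    refine le_trans ?_ (le_abs_self _)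
    push_cast
    linarith
  have hnear : e μ 0 n (md n) ≤ EE μ n - 1 := (e_le_ep h.em hmd0 hmdn).trans (ep_le_EE le_rfl)
  have h1 : e μ 0 n (md n - k * s) - e μ 0 n (md n) ≤ 2 * (k * A) + 4 := (le_abs_self _).trans hmain
  have h2 : EE μ n ≤ 2 * (k * A) := by
    rw [hMdef] at hfark
    linarith
  have h3 : (k : ℝ) ≤ 4 * M * (wd μ n / s) := by
    rw [← mul_div_assoc, le_div_iff₀ hs0]
    exact hk2
  calc EE μ n ≤ 2 * (k * A) := h2
    _ ≤ 2 * (4 * M * (wd μ n / s) * A) := by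
        have := mul_le_mul_of_nonneg_right h3 hA
        linarith
    _ = 8 * M * (wd μ n / s) * A := by ring

end Pool.Agent.W_7d29a1_Z25
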